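import Pool.Agent.H44.Gon.Final

/-!
# The worst ratio between graph and metric graph divisorial gonality is two
-/

set_option autoImplicit false

open Pool.Agent.H44.Gon

/-- The smallest constant `c` such that `dgon(G) ≤ c * dgon(Γ(G))` for every finite connected
loopless multigraph `G` is `c = 2`. The first part records that the two gonalities, defined as
infima over natural numbers, are attained. -/
theorem Pool.Agent.Results.MP_806935_co.WorstRatioTwo.result :
    (∀ G : MGraph, (∃ D : G.V → ℤ, ∑ v, D v = (G.dgon : ℤ) ∧ G.RankPos D) ∧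
      ∃ D : G.Pt →₀ ℤ, G.mdeg D = (G.dgonMetric : ℤ) ∧ G.MRankPos D) ∧
    IsLeast {c : ℝ | ∀ G : MGraph, (G.dgon : ℝ) ≤ c * (G.dgonMetric : ℝ)} 2 :=
  ⟨fun G => ⟨G.dgon_mem, G.dgonMetric_mem⟩,
    fun G => G.dgon_le_two_mul, fun _ hc => two_le_of_bound hc⟩
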